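import Pool.Agent.H474R3.AA.All
import Pool.Agent.H474R3.AA.DensityF

set_option autoImplicit false

/-! # Windows without prime values around almost all integers

Let `f` be an irreducible polynomial with integer coefficients and positive degree (for example
`X ^ 2 + 1`).  For all `C`, `δ > 0`, `ε > 0` there are `c > 0` and `J₀` such that for every `J ≥ J₀`
and all large `N`: if `A 0, ..., A (J - 1)` are disjoint sets of at most `C log N` integers `a`,
`|a| ≤ N ^ C`, then for all but `ε N` of the `n < N` at least `c J` of the sets `A j` have the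
property that none of the `|f (n + a)|`, `a ∈ A j`, is prime, each `f (n + a)` having a proper prime
factor at most `N ^ δ`. -/

namespace Pool.Agent.Results.MP_7169d5_nt.CompositeWindows

open Classical in
theorem result (f : Polynomial ℤ) (hf : Irreducible f) (hd : 0 < f.natDegree) (C δ ε : ℝ)
    (hδ : 0 < δ) (hε : 0 < ε) :
    ∃ c : ℝ, 0 < c ∧ ∃ J₀ : ℕ, ∀ J : ℕ, J₀ ≤ J → ∃ N₀ : ℕ, ∀ N : ℕ, N₀ ≤ N →
      ∀ A : Fin J → Finset ℤ, (∀ i j, i ≠ j → Disjoint (A i) (A j)) →
        (∀ j, ∀ a ∈ A j, |(a : ℝ)| ≤ (N : ℝ) ^ C) →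
        (∀ j, ((A j).card : ℝ) ≤ C * Real.log N) →
        (((Finset.range N).filter (fun n : ℕ => ((Finset.univ.filter (fun j : Fin J =>
          ∀ a ∈ A j, ¬ (f.eval ((n : ℤ) + a)).natAbs.Prime ∧ ∃ p : ℕ, p.Prime ∧
          (p : ℝ) ≤ (N : ℝ) ^ δ ∧ (p : ℤ) ∣ f.eval ((n : ℤ) + a) ∧
          p < (f.eval ((n : ℤ) + a)).natAbs)).card : ℝ) < c * J)).card : ℝ) ≤ ε * N :=
  Pool.Agent.H474R3.AA.polyDensity_of Pool.Agent.H474R3.AA.polyAA f hf hd C δ ε hδ hε

end Pool.Agent.Results.MP_7169d5_nt.CompositeWindows
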