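import Pool.Agent.H359R4.ParMain

/-!
Let `f` be a completely additive function from the positive integers to a finite abelian group
with `f p ≠ 0` for some prime `p ≡ 1 (mod 4)`. Then `f (a^2+1)` is not constant on most even
integers `a`, nor on most odd integers `a`: for every `v` and both parities `ε`, for arbitrarily
large `X` at least `X / (log X)^41` of the integers `a` in `(X, 2X]` satisfy `a ≡ ε (mod 2)`,
`f (a^2+1) ≠ v` and `a^2+1 = s^2 m` with `m` squarefree and `s ≤ (log X)^45`.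

Example: `f = Ω mod 2` gives both signs of `μ(m)`, with `a` even (and with `a` odd).
-/

theorem Pool.Agent.Results.MP_7169d5_nt.EvenArguments.result
    {H : Type} [AddCommGroup H] [Finite H] (f : ℕ → H)
    (hf : ∀ a b : ℕ, a ≠ 0 → b ≠ 0 → f (a * b) = f a + f b)
    (hp : ∃ p : ℕ, p.Prime ∧ p % 4 = 1 ∧ f p ≠ 0) (v : H) (ε : ℕ) (hε : ε < 2) (X0 : ℕ) :
    ∃ X : ℕ, X0 ≤ X ∧
      (X : ℝ) / Real.log X ^ 41 ≤ (Set.ncard {a : ℕ | X < a ∧ a ≤ 2 * X ∧
        (a % 2 = ε ∧ f (a ^ 2 + 1) ≠ v) ∧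
        ∃ s m : ℕ, a ^ 2 + 1 = s ^ 2 * m ∧ Squarefree m ∧ (s : ℝ) ≤ Real.log X ^ 45} : ℝ) :=
  H359R4.par_main f hf hp v ε hε X0
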