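import Pool.Agent.H358R2.NearSq

set_option autoImplicit false

/-- For every set `S` containing a prime not congruent to `3` modulo `4` and every `ε > 0`, for all
large `x` at least `x ^ (1 - ε)` integers `1 ≤ n ≤ x` satisfy `n ^ 2 + 1 = k ^ 2 * m` with
`k ≤ x ^ ε`, `m` squarefree, and an odd number of primes of `S` dividing `m`. -/
theorem Pool.Agent.Results.MP_7169d5_nt.OddPartAllScales.result (S : Set ℕ)
    (hS : ∃ p ∈ S, p.Prime ∧ p % 4 ≠ 3) (ε : ℝ) (hε : 0 < ε) :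
    ∃ x₀ : ℕ, ∀ x : ℕ, x₀ ≤ x → (x : ℝ) ^ (1 - ε) ≤
      ({n : ℕ | 1 ≤ n ∧ n ≤ x ∧ ∃ k m : ℕ, n ^ 2 + 1 = k ^ 2 * m ∧ (k : ℝ) ≤ (x : ℝ) ^ ε ∧
        Squarefree m ∧ Odd ({p : ℕ | p.Prime ∧ p ∣ m ∧ p ∈ S}.ncard)}.ncard : ℝ) := by
  classical
  obtain ⟨p, hpS, hp, hp4⟩ := hS
  have h := Pool.Agent.H358R2.near_squarefree S p hp hpS hp4 ε hε
  rw [Filter.eventually_atTop] at h
  obtain ⟨x₀, hx₀⟩ := h
  refine ⟨x₀, fun x hx => (hx₀ x hx).trans ?_⟩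
  rw [← Set.ncard_coe_finset]
  have hfin : ({n : ℕ | 1 ≤ n ∧ n ≤ x ∧ ∃ k m : ℕ, n ^ 2 + 1 = k ^ 2 * m ∧ (k : ℝ) ≤ (x : ℝ) ^ ε ∧
        Squarefree m ∧ Odd ({p : ℕ | p.Prime ∧ p ∣ m ∧ p ∈ S}.ncard)}).Finite :=
    (Set.finite_Icc 1 x).subset fun n hn => ⟨hn.1, hn.2.1⟩
  have hsub := Set.ncard_le_ncard (s := (((Finset.Icc 1 x).filter fun n : ℕ =>
      ∃ k m : ℕ, n ^ 2 + 1 = k ^ 2 * m ∧ (k : ℝ) ≤ (x : ℝ) ^ ε ∧
        Squarefree m ∧ Odd ((m.primeFactors.filter fun p => p ∈ S).card) : Finset ℕ) : Set ℕ))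
    (t := {n : ℕ | 1 ≤ n ∧ n ≤ x ∧ ∃ k m : ℕ, n ^ 2 + 1 = k ^ 2 * m ∧ (k : ℝ) ≤ (x : ℝ) ^ ε ∧
        Squarefree m ∧ Odd ({p : ℕ | p.Prime ∧ p ∣ m ∧ p ∈ S}.ncard)}) (by
      intro n hn
      rw [Finset.mem_coe, Finset.mem_filter, Finset.mem_Icc] at hn
      obtain ⟨⟨h1, h2⟩, k, m, h3, h4, h5, h6⟩ := hn
      refine ⟨h1, h2, k, m, h3, h4, h5, ?_⟩
      have e : {p : ℕ | p.Prime ∧ p ∣ m ∧ p ∈ S} =
          ((m.primeFactors.filter fun p => p ∈ S : Finset ℕ) : Set ℕ) := by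
        ext q
        simp only [Set.mem_setOf_eq, Finset.coe_filter, Nat.mem_primeFactors]
        constructor
        · rintro ⟨g1, g2, g3⟩
          exact ⟨⟨g1, g2, h5.ne_zero⟩, g3⟩
        · rintro ⟨⟨g1, g2, _⟩, g3⟩
          exact ⟨g1, g2, g3⟩
      rw [e, Set.ncard_coe_finset]
      exact h6) hfin
  exact_mod_cast hsub
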