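import Pool.Agent.H505R2.Out

set_option autoImplicit false

/-- For every `ε > 0` there are `δ > 0` and `r` such that for all large `X` one of the following
holds: (A) at least `X ^ (1 - ε)` integers `n ≤ X` have `n ^ 2 + 1` equal to a product of an even
number, at most `r`, of primes larger than `X ^ δ`; (B) at least `X ^ (1 - ε)` integers `n ≤ X` have
`n ^ 2 + 1` equal to a product of an odd number of such primes, and for each parity at least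
`X ^ (1 - ε)` integers `n ≤ X` have `(n ^ 2 + 1) / 2` equal to a product of that parity of such
primes. -/
theorem Pool.Agent.Results.MP_7169d5_nt.RoughParityTrichotomy.result (ε : ℝ) (hε : 0 < ε) :
    ∃ δ : ℝ, 0 < δ ∧ ∃ r X₀ : ℕ, ∀ X : ℕ, X₀ ≤ X →
      (X : ℝ) ^ (1 - ε) ≤ (({n : ℕ | n ≤ X ∧ 1 ≤ n ∧ Even (n ^ 2 + 1).primeFactorsList.length ∧
          (n ^ 2 + 1).primeFactorsList.length ≤ r ∧
          ∀ p : ℕ, p.Prime → p ∣ n ^ 2 + 1 → (X : ℝ) ^ δ < p} : Set ℕ).ncard : ℝ) ∨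
      ((X : ℝ) ^ (1 - ε) ≤ (({n : ℕ | n ≤ X ∧ 1 ≤ n ∧ Odd (n ^ 2 + 1).primeFactorsList.length ∧
          (n ^ 2 + 1).primeFactorsList.length ≤ r ∧
          ∀ p : ℕ, p.Prime → p ∣ n ^ 2 + 1 → (X : ℝ) ^ δ < p} : Set ℕ).ncard : ℝ) ∧
        (X : ℝ) ^ (1 - ε) ≤ (({n : ℕ | n ≤ X ∧ ∃ m : ℕ, n ^ 2 + 1 = 2 * m ∧ 1 < m ∧
          Even m.primeFactorsList.length ∧ m.primeFactorsList.length ≤ r ∧
          ∀ p : ℕ, p.Prime → p ∣ m → (X : ℝ) ^ δ < p} : Set ℕ).ncard : ℝ) ∧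
        (X : ℝ) ^ (1 - ε) ≤ (({n : ℕ | n ≤ X ∧ ∃ m : ℕ, n ^ 2 + 1 = 2 * m ∧ 1 < m ∧
          Odd m.primeFactorsList.length ∧ m.primeFactorsList.length ≤ r ∧
          ∀ p : ℕ, p.Prime → p ∣ m → (X : ℝ) ^ δ < p} : Set ℕ).ncard : ℝ)) := by
  obtain ⟨δ, hδ, r, X₀, h⟩ := Pool.Agent.H505R2.core2 (b := 0) (c := 1) (t := 0) (s := 2) (s' := 3)
    (m0 := 1) 0 1 le_rfl (Or.inl rfl) le_rfl (by unfold Pool.Agent.H505R2.qf; norm_num)
    (by unfold Pool.Agent.H505R2.qf; norm_num) (by unfold Pool.Agent.H505R2.qf; norm_num)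
    (by unfold Pool.Agent.H505R2.qf; norm_num) (by norm_num) (by norm_num)
    (by unfold Pool.Agent.H505R2.qf; norm_num) (by norm_num) (by norm_num) ε hε
  refine ⟨δ, hδ, r, X₀, fun X hX => ?_⟩
  obtain ⟨i, hi, l, hl, h1, h2, h3⟩ := h X hX
  -- the set for `n ^ 2 + 1`
  have key1 : ∀ e : ℕ, ∀ N ∈ Pool.Agent.H505R2.SS 0 1 1 1 δ r X e, N ≤ X ∧ 1 ≤ N ∧
      (N ^ 2 + 1).primeFactorsList.length % 2 = e ∧ (N ^ 2 + 1).primeFactorsList.length ≤ r ∧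
      ∀ p : ℕ, p.Prime → p ∣ N ^ 2 + 1 → (X : ℝ) ^ δ < p := by
    rintro e N ⟨hN, M, e1, e2, e3, e4, e5⟩
    have e6 : N ^ 2 + 1 = M := by
      unfold Pool.Agent.H505R2.fm at e1
      have : ((N ^ 2 + 1 : ℕ) : ℤ) = (M : ℤ) := by push_cast; linarith
      exact_mod_cast this
    rw [e6]
    refine ⟨hN, ?_, e3, e4, e5⟩
    by_contra hcon
    have : N = 0 := by omega
    rw [this] at e6
    omega
  have key2 : ∀ e : ℕ, ∀ N ∈ Pool.Agent.H505R2.SS 0 1 1 2 δ r X e, N ≤ X ∧ ∃ m : ℕ,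
      N ^ 2 + 1 = 2 * m ∧ 1 < m ∧ m.primeFactorsList.length % 2 = e ∧
      m.primeFactorsList.length ≤ r ∧ ∀ p : ℕ, p.Prime → p ∣ m → (X : ℝ) ^ δ < p := by
    rintro e N ⟨hN, M, e1, e2, e3, e4, e5⟩
    refine ⟨hN, M, ?_, e2, e3, e4, e5⟩
    unfold Pool.Agent.H505R2.fm at e1
    have : ((N ^ 2 + 1 : ℕ) : ℤ) = ((2 * M : ℕ) : ℤ) := by push_cast; linarith
    exact_mod_cast this
  -- comparison of cardinalities
  have cmp : ∀ {S S' : Set ℕ}, (∀ n ∈ S, n ∈ S') → (∀ n ∈ S', n ≤ X) →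
      (X : ℝ) ^ (1 - ε) ≤ (S.ncard : ℝ) → (X : ℝ) ^ (1 - ε) ≤ (S'.ncard : ℝ) := by
    intro S S' hS hS' hc
    refine hc.trans ?_
    exact_mod_cast Set.ncard_le_ncard hS ((Set.finite_Iic X).subset hS')
  have hi2 : i = 0 ∨ i = 1 := by omega
  rcases hi2 with rfl | rfl
  · left
    refine cmp ?_ (fun n hn => hn.1) h1
    intro n hn
    obtain ⟨a1, a2, a3, a4, a5⟩ := key1 0 n hn
    exact ⟨a1, a2, Nat.even_iff.2 a3, a4, a5⟩
  · right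
    have hB : ∀ e : ℕ, e < 2 → (X : ℝ) ^ (1 - ε) ≤
        ((Pool.Agent.H505R2.SS 0 1 1 2 δ r X e).ncard : ℝ) := by
      intro e he
      have : e = l ∨ e = (1 + l) % 2 := by omega
      rcases this with rfl | rfl
      · exact h2
      · exact_mod_cast h3
    refine ⟨cmp ?_ (fun n hn => hn.1) h1, cmp ?_ (fun n hn => hn.1) (hB 0 (by norm_num)),
      cmp ?_ (fun n hn => hn.1) (hB 1 (by norm_num))⟩
    · intro n hn
      obtain ⟨a1, a2, a3, a4, a5⟩ := key1 1 n hn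
      exact ⟨a1, a2, Nat.odd_iff.2 a3, a4, a5⟩
    · intro n hn
      obtain ⟨a1, M, a2, a3, a4, a5, a6⟩ := key2 0 n hn
      exact ⟨a1, M, a2, a3, Nat.even_iff.2 a4, a5, a6⟩
    · intro n hn
      obtain ⟨a1, M, a2, a3, a4, a5, a6⟩ := key2 1 n hn
      exact ⟨a1, M, a2, a3, Nat.odd_iff.2 a4, a5, a6⟩
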